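import Mathlib

/-!
# A small sum
-/

namespace Pool.Agent.MPd164ca

open Finset

private theorem sr_sum_bern {x : ℝ} (hx : 1 ≤ x) (n : ℕ) : x ^ n - 1 ≤ n * (x - 1) * x ^ n := by
  induction n with
  | zero => simp
  | succ n ih =>
    have h1 : 1 ≤ x ^ n := one_le_pow₀ hx
    have h2 : 0 ≤ (x - 1) := by linarith
    have h3 : x ^ n ≤ x ^ (n + 1) := pow_le_pow_right₀ hx (Nat.le_succ n)
    have h4 : x ^ (n + 1) - 1 = x ^ n * (x - 1) + (x ^ n - 1) := by ring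
    rw [h4]
    push_cast
    have h5 : x ^ n * (x - 1) + (x ^ n - 1) ≤ (n + 1) * (x - 1) * x ^ n := by
      linarith
    refine h5.trans ?_
    exact mul_le_mul_of_nonneg_left h3 (by positivity)

private theorem sr_sum_summable {τ r : ℝ} (h0 : 0 < τ) (h1 : τ < 1) (hr : 0 < r) :
    Summable fun m : ℕ => (m : ℝ) ^ 2 * (r ^ m * τ ^ (m ^ 2)) := by
  have hg : Summable fun m : ℕ => (m : ℝ) ^ 2 * (1 / 2 : ℝ) ^ m :=
    summable_pow_mul_geometric_of_norm_lt_one 2 (by norm_num)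
  have ht : Filter.Tendsto (fun m : ℕ => r * τ ^ m) Filter.atTop (nhds (r * 0)) :=
    (tendsto_pow_atTop_nhds_zero_of_lt_one h0.le h1).const_mul r
  rw [mul_zero] at ht
  have hev : ∀ᶠ m : ℕ in Filter.atTop, r * τ ^ m ≤ 1 / 2 :=
    (ht.eventually (gt_mem_nhds (by norm_num : (0 : ℝ) < 1 / 2))).mono fun m hm => le_of_lt hm
  refine Summable.of_norm_bounded_eventually_nat hg ?_
  refine hev.mono fun m hm => ?_
  have h2 : r ^ m * τ ^ (m ^ 2) = (r * τ ^ m) ^ m := by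
    rw [mul_pow, ← pow_mul, sq]
  rw [h2, Real.norm_of_nonneg (by positivity)]
  exact mul_le_mul_of_nonneg_left (pow_le_pow_left₀ (by positivity) hm m) (by positivity)

theorem sr_sum {σ K ε : ℝ} (h0 : 0 < σ) (h1 : σ < 1) (hK : 0 < K) (hε : 0 < ε) :
    ∃ η₀ : ℝ, 0 < η₀ ∧ ∀ η : ℝ, 0 < η → η ≤ η₀ → ∀ N : ℕ,
      ∑ m ∈ range N, K ^ m * σ ^ (m * (m - 1)) * ((1 + η) ^ (m ^ 2) - 1) ≤ ε := by
  obtain ⟨τ, ht0, ht1, hts⟩ : ∃ τ : ℝ, 0 < τ ∧ τ < 1 ∧ τ ^ 2 = σ := by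
    refine ⟨√σ, Real.sqrt_pos.2 h0, ?_, Real.sq_sqrt h0.le⟩
    rw [Real.sqrt_lt' one_pos]
    linarith
  have hr : 0 < K / τ ^ 2 := by positivity
  have hS := sr_sum_summable ht0 ht1 hr
  set c : ℕ → ℝ := fun m => (m : ℝ) ^ 2 * ((K / τ ^ 2) ^ m * τ ^ (m ^ 2)) with hc
  have hc0 : ∀ m, 0 ≤ c m := fun m => by
    simp only [hc]
    positivity
  have hC : 0 ≤ ∑' m, c m := tsum_nonneg hc0
  have hinv : 1 < 1 / τ := by
    rw [lt_div_iff₀ ht0]
    linarith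
  refine ⟨min (1 / τ - 1) (ε / ((∑' m, c m) + 1)), lt_min (by linarith) (by positivity), ?_⟩
  intro η hη hle N
  have hη1 : 1 + η ≤ 1 / τ := by linarith [hle.trans (min_le_left _ _)]
  have hη2 : η * ((∑' m, c m) + 1) ≤ ε := by
    have := hle.trans (min_le_right _ _)
    rwa [le_div_iff₀ (by positivity)] at this
  have hterm : ∀ m : ℕ, K ^ m * σ ^ (m * (m - 1)) * ((1 + η) ^ (m ^ 2) - 1) ≤ η * c m := by
    intro m
    have hb := sr_sum_bern (x := 1 + η) (by linarith) (m ^ 2)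
    have hp : (1 + η) ^ (m ^ 2) ≤ (1 / τ) ^ (m ^ 2) := pow_le_pow_left₀ (by linarith) hη1 _
    have h3 : (1 + η) ^ (m ^ 2) - 1 ≤ (m : ℝ) ^ 2 * η * (1 / τ) ^ (m ^ 2) := by
      refine hb.trans ?_
      push_cast
      rw [add_sub_cancel_left]
      exact mul_le_mul_of_nonneg_left hp (by positivity)
    refine (mul_le_mul_of_nonneg_left h3 (by positivity)).trans (le_of_eq ?_)
    simp only [hc]
    rcases m with _ | k
    · simp
    · have h4 : σ ^ ((k + 1) * (k + 1 - 1)) * (1 / τ) ^ ((k + 1) ^ 2) =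
          (1 / τ ^ 2) ^ (k + 1) * τ ^ ((k + 1) ^ 2) := by
        rw [← hts, Nat.add_sub_cancel, one_div, one_div, inv_pow, inv_pow, ← pow_mul, ← pow_mul]
        rw [mul_inv_eq_iff_eq_mul₀ (by positivity), mul_assoc, ← pow_add, eq_inv_mul_iff_mul_eq₀ (by positivity),
          ← pow_add]
        congr 1
        ring
      rw [div_eq_mul_one_div K, mul_pow K]
      push_cast
      calc K ^ (k + 1) * σ ^ ((k + 1) * (k + 1 - 1)) * (((k : ℝ) + 1) ^ 2 * η * (1 / τ) ^ ((k + 1) ^ 2))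
          = K ^ (k + 1) * (((k : ℝ) + 1) ^ 2 * η) * (σ ^ ((k + 1) * (k + 1 - 1)) * (1 / τ) ^ ((k + 1) ^ 2)) := by ring
        _ = η * (((k : ℝ) + 1) ^ 2 * (K ^ (k + 1) * (1 / τ ^ 2) ^ (k + 1) * τ ^ ((k + 1) ^ 2))) := by
            rw [h4]
            ring
  calc ∑ m ∈ range N, K ^ m * σ ^ (m * (m - 1)) * ((1 + η) ^ (m ^ 2) - 1)
      ≤ ∑ m ∈ range N, η * c m := sum_le_sum fun m _ => hterm m
    _ = η * ∑ m ∈ range N, c m := by rw [mul_sum]
    _ ≤ η * ∑' m, c m := mul_le_mul_of_nonneg_left (hS.sum_le_tsum _ fun m _ => hc0 m) hη.le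
    _ ≤ ε := by nlinarith

end Pool.Agent.MPd164ca
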