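import Mathlib

/-!
# Decay of the terms
-/

namespace Pool.Agent.MPd164ca

private theorem srt_choose (n j : ℕ) :
    (n.choose j : ℝ) * (n.choose (j + 2) : ℝ) ≤ (n.choose (j + 1) : ℝ) ^ 2 := by
  rcases Nat.lt_or_ge n (j + 1) with h | h
  · rw [Nat.choose_eq_zero_of_lt (show n < j + 2 by omega)]
    simp
  · obtain ⟨r, rfl⟩ : ∃ r, n = j + 1 + r := ⟨n - (j + 1), by omega⟩
    have h1 : ((j + 1 + r).choose (j + 2) : ℝ) * (j + 2) = ((j + 1 + r).choose (j + 1) : ℝ) * r := by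
      have := Nat.choose_succ_right_eq (j + 1 + r) (j + 1)
      rw [show j + 1 + r - (j + 1) = r by omega] at this
      exact_mod_cast this
    have h2 : ((j + 1 + r).choose (j + 1) : ℝ) * (j + 1) = ((j + 1 + r).choose j : ℝ) * (r + 1) := by
      have := Nat.choose_succ_right_eq (j + 1 + r) j
      rw [show j + 1 + r - j = r + 1 by omega] at this
      exact_mod_cast this
    have hpos : (0 : ℝ) < ((j : ℝ) + 2) * (r + 1) := by positivity
    have h3 : ((j + 1 + r).choose j : ℝ) * ((j + 1 + r).choose (j + 2) : ℝ) * (((j : ℝ) + 2) * (r + 1)) =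
        ((j + 1 + r).choose (j + 1) : ℝ) ^ 2 * ((j + 1) * r) := by
      calc _ = (((j + 1 + r).choose j : ℝ) * (r + 1)) * (((j + 1 + r).choose (j + 2) : ℝ) * (j + 2)) := by ring
        _ = _ := by rw [h1, ← h2]; ring
    have h4 : ((j + 1 + r).choose (j + 1) : ℝ) ^ 2 * (((j : ℝ) + 1) * r) ≤
        ((j + 1 + r).choose (j + 1) : ℝ) ^ 2 * (((j : ℝ) + 2) * (r + 1)) := by
      refine mul_le_mul_of_nonneg_left ?_ (sq_nonneg _)
      have : (0 : ℝ) ≤ r := by positivity
      have : (0 : ℝ) ≤ j := by positivity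
      nlinarith
    rw [← h3] at h4
    exact le_of_mul_le_mul_right h4 hpos

private theorem srt_conc {σ z : ℝ} (h0 : 0 < σ) (hz : 0 < z) (n j : ℕ) :
    ((n.choose j : ℝ) * σ ^ (j ^ 2) * z ^ j) * ((n.choose (j + 2) : ℝ) * σ ^ ((j + 2) ^ 2) * z ^ (j + 2)) ≤
      σ ^ 2 * ((n.choose (j + 1) : ℝ) * σ ^ ((j + 1) ^ 2) * z ^ (j + 1)) ^ 2 := by
  have e1 : ((n.choose j : ℝ) * σ ^ (j ^ 2) * z ^ j) * ((n.choose (j + 2) : ℝ) * σ ^ ((j + 2) ^ 2) * z ^ (j + 2)) =
      ((n.choose j : ℝ) * (n.choose (j + 2) : ℝ)) * (σ ^ (2 * (j + 1) ^ 2 + 2) * z ^ (2 * (j + 1))) := by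
    have a1 : σ ^ (2 * (j + 1) ^ 2 + 2) = σ ^ (j ^ 2) * σ ^ ((j + 2) ^ 2) := by
      rw [← pow_add]
      congr 1
      ring
    have a2 : z ^ (2 * (j + 1)) = z ^ j * z ^ (j + 2) := by
      rw [← pow_add]
      congr 1
      ring
    rw [a1, a2]
    ring
  have e2 : σ ^ 2 * ((n.choose (j + 1) : ℝ) * σ ^ ((j + 1) ^ 2) * z ^ (j + 1)) ^ 2 =
      (n.choose (j + 1) : ℝ) ^ 2 * (σ ^ (2 * (j + 1) ^ 2 + 2) * z ^ (2 * (j + 1))) := by
    have a1 : σ ^ (2 * (j + 1) ^ 2 + 2) = (σ ^ ((j + 1) ^ 2)) ^ 2 * σ ^ 2 := by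
      rw [← pow_mul, ← pow_add]
      congr 1
      ring
    have a2 : z ^ (2 * (j + 1)) = (z ^ (j + 1)) ^ 2 := by
      rw [← pow_mul]
      congr 1
      ring
    rw [a1, a2]
    ring
  rw [e1, e2]
  exact mul_le_mul_of_nonneg_right (srt_choose n j) (by positivity)

theorem sr_tail {σ z K : ℝ} (h0 : 0 < σ) (h1 : σ < 1) (hz : 0 < z) (hK : 0 < K) {n p : ℕ} (hp : 1 ≤ p)
    (hpn : p ≤ n)
    (hup : (n.choose (p + 1) : ℝ) * σ ^ ((p + 1) ^ 2) * z ^ (p + 1) ≤
      K * ((n.choose p : ℝ) * σ ^ (p ^ 2) * z ^ p))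
    (hdn : (n.choose (p - 1) : ℝ) * σ ^ ((p - 1) ^ 2) * z ^ (p - 1) ≤
      K * ((n.choose p : ℝ) * σ ^ (p ^ 2) * z ^ p)) (m : ℕ) :
    (n.choose (p + m) : ℝ) * σ ^ ((p + m) ^ 2) * z ^ (p + m) ≤
      K ^ m * σ ^ (m * (m - 1)) * ((n.choose p : ℝ) * σ ^ (p ^ 2) * z ^ p) ∧
    (m ≤ p → (n.choose (p - m) : ℝ) * σ ^ ((p - m) ^ 2) * z ^ (p - m) ≤
      K ^ m * σ ^ (m * (m - 1)) * ((n.choose p : ℝ) * σ ^ (p ^ 2) * z ^ p)) := by
  obtain ⟨T, hT⟩ : ∃ T : ℕ → ℝ, T = fun k => (n.choose k : ℝ) * σ ^ (k ^ 2) * z ^ k := ⟨_, rfl⟩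
  have hTe : ∀ k, (n.choose k : ℝ) * σ ^ (k ^ 2) * z ^ k = T k := fun k => by rw [hT]
  rw [hTe, hTe] at hup hdn
  rw [hTe, hTe, hTe]
  have hT0 : ∀ k, 0 ≤ T k := fun k => by rw [← hTe]; positivity
  have hTp : ∀ k, k ≤ n → 0 < T k := fun k hk => by
    rw [← hTe]
    have : (0 : ℝ) < (n.choose k : ℝ) := by exact_mod_cast Nat.choose_pos hk
    positivity
  have hTz : ∀ k, n < k → T k = 0 := fun k hk => by
    rw [← hTe, Nat.choose_eq_zero_of_lt hk]
    simp
  have hc : ∀ j, T j * T (j + 2) ≤ σ ^ 2 * T (j + 1) ^ 2 := fun j => by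
    have := srt_conc h0 hz n j
    rwa [hTe, hTe, hTe] at this
  have hU : ∀ i, T (p + i + 1) ≤ K * σ ^ (2 * i) * T (p + i) := by
    intro i
    induction i with
    | zero => simpa using hup
    | succ i ih =>
      rcases Nat.lt_or_ge n (p + i) with h | h
      · rw [hTz (p + (i + 1) + 1) (by omega)]
        have := hT0 (p + (i + 1))
        positivity
      · have b1 := hc (p + i)
        have b2 := hTp (p + i) h
        have b3 := hT0 (p + i + 1)
        have b4 := mul_le_mul_of_nonneg_left (mul_le_mul_of_nonneg_left ih b3) (sq_nonneg σ)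
        have b5 : T (p + i) * T (p + i + 2) ≤ T (p + i) * (K * σ ^ (2 * (i + 1)) * T (p + i + 1)) := by
          refine b1.trans ?_
          rw [sq (T (p + i + 1))]
          refine b4.trans (le_of_eq ?_)
          rw [show 2 * (i + 1) = 2 * i + 2 by ring, pow_add]
          ring
        exact le_of_mul_le_mul_left b5 b2
  have hD : ∀ i, i + 1 ≤ p → T (p - (i + 1)) ≤ K * σ ^ (2 * i) * T (p - i) := by
    intro i
    induction i with
    | zero => intro _; simpa using hdn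
    | succ i ih =>
      intro hi
      have ih' := ih (by omega)
      obtain ⟨r, hr⟩ : ∃ r, p = r + i + 2 := ⟨p - (i + 2), by omega⟩
      have q1 : p - (i + 1 + 1) = r := by omega
      have q2 : p - (i + 1) = r + 1 := by omega
      have q3 : p - i = r + 2 := by omega
      rw [q2, q3] at ih'
      rw [q1, q2]
      have b1 := hc r
      have b2 := hTp (r + 2) (by omega)
      have b3 := hT0 (r + 1)
      have b4 := mul_le_mul_of_nonneg_left (mul_le_mul_of_nonneg_left ih' b3) (sq_nonneg σ)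
      have b5 : T (r + 2) * T r ≤ T (r + 2) * (K * σ ^ (2 * (i + 1)) * T (r + 1)) := by
        rw [mul_comm (T (r + 2)) (T r)]
        refine b1.trans ?_
        rw [sq (T (r + 1))]
        refine b4.trans (le_of_eq ?_)
        rw [show 2 * (i + 1) = 2 * i + 2 by ring, pow_add]
        ring
      exact le_of_mul_le_mul_left b5 b2
  have hexp : ∀ i : ℕ, (i + 1) * (i + 1 - 1) = 2 * i + i * (i - 1) := by
    intro i
    rcases i with _ | i
    · rfl
    · simp only [Nat.add_sub_cancel]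
      ring
  constructor
  · induction m with
    | zero => simp
    | succ m ih =>
      refine (hU m).trans ?_
      refine (mul_le_mul_of_nonneg_left ih (by positivity)).trans (le_of_eq ?_)
      rw [hexp, pow_add, pow_succ]
      ring
  · induction m with
    | zero => intro _; simp
    | succ m ih =>
      intro hm
      refine (hD m hm).trans ?_
      refine (mul_le_mul_of_nonneg_left (ih (by omega)) (by positivity)).trans (le_of_eq ?_)
      rw [hexp, pow_add, pow_succ]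
      ring

end Pool.Agent.MPd164ca
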