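import Mathlib

/-!
# The central term dominates the value
-/

namespace Pool.Agent.MPd164ca

open Finset

private theorem coeff_low (t : ℕ → ℝ) (n : ℕ) (ht : ∀ i < n, 0 ≤ t i) :
    (∀ p, 0 ≤ (∏ i ∈ range n, (1 + Polynomial.C (t i) * Polynomial.X)).coeff p) ∧
    ∀ p ≤ n, ∏ i ∈ range p, t i ≤ (∏ i ∈ range n, (1 + Polynomial.C (t i) * Polynomial.X)).coeff p := by
  induction n with
  | zero =>
    refine ⟨fun p => ?_, fun p hp => ?_⟩
    · rw [prod_range_zero, Polynomial.coeff_one]
      split_ifs <;> norm_num
    · have : p = 0 := by omega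
      subst this
      simp
  | succ n ih =>
    obtain ⟨ih1, ih2⟩ := ih (fun i hi => ht i (by omega))
    have htn := ht n (by omega)
    have hc0 : (∏ i ∈ range (n + 1), (1 + Polynomial.C (t i) * Polynomial.X)).coeff 0 =
        (∏ i ∈ range n, (1 + Polynomial.C (t i) * Polynomial.X)).coeff 0 := by
      rw [prod_range_succ, mul_add, mul_one, Polynomial.coeff_add, ← mul_assoc,
        Polynomial.coeff_mul_X_zero, add_zero]
    have hcs : ∀ q, (∏ i ∈ range (n + 1), (1 + Polynomial.C (t i) * Polynomial.X)).coeff (q + 1) =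
        (∏ i ∈ range n, (1 + Polynomial.C (t i) * Polynomial.X)).coeff (q + 1) +
        (∏ i ∈ range n, (1 + Polynomial.C (t i) * Polynomial.X)).coeff q * t n := by
      intro q
      rw [prod_range_succ, mul_add, mul_one, Polynomial.coeff_add, ← mul_assoc,
        Polynomial.coeff_mul_X, Polynomial.coeff_mul_C]
    refine ⟨fun p => ?_, fun p hp => ?_⟩
    · cases p with
      | zero => rw [hc0]; exact ih1 0
      | succ q =>
        rw [hcs]
        exact add_nonneg (ih1 _) (mul_nonneg (ih1 _) htn)
    · cases p with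
      | zero => rw [hc0]; exact ih2 0 (Nat.zero_le _)
      | succ q =>
        rw [hcs]
        rcases Nat.lt_or_ge n (q + 1) with h | h
        · have hq : q = n := by omega
          subst hq
          rw [prod_range_succ]
          exact le_trans (mul_le_mul_of_nonneg_right (ih2 q le_rfl) htn)
            (le_add_of_nonneg_left (ih1 _))
        · exact le_trans (ih2 (q + 1) h) (le_add_of_nonneg_right (mul_nonneg (ih1 _) htn))

theorem sr_top {ρ : ℝ} (hρ : 1 < ρ) {n : ℕ} {a x : ℕ → ℝ} (hx : ∀ i < n, 0 < x i)
    (hm : ∀ i, i + 1 < n → ρ ^ 2 * x i ≤ x (i + 1))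
    (ha : ∀ y : ℝ, ∑ k ∈ range (n + 1), a k * y ^ k = ∏ i ∈ range n, (1 + y / x i))
    {j : ℕ} (hj : j < n) :
    |∏ i ∈ range n, (1 - ρ * x j / x i)| ≤ a (j + 1) * (ρ * x j) ^ (j + 1) := by
  have hρ2 : 1 < ρ ^ 2 := by nlinarith
  have hxj := hx j hj
  have hmono : ∀ d i, i + d < n → x i ≤ x (i + d) := by
    intro d
    induction d with
    | zero => intro i _; exact le_rfl
    | succ d ih =>
      intro i hi
      have h1 := ih i (by omega)
      have h2 := hm (i + d) (by omega)
      have h3 := hx (i + d) (by omega)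
      have h4 : x (i + (d + 1)) = x (i + d + 1) := rfl
      rw [h4]
      nlinarith
  have hbig : ∀ i, j < i → i < n → ρ ^ 2 * x j ≤ x i := by
    intro i hi1 hi2
    have h1 := hm j (by omega)
    have h2 := hmono (i - (j + 1)) (j + 1) (by omega)
    rw [show j + 1 + (i - (j + 1)) = i by omega] at h2
    linarith
  have hsmall : ∀ i, i ≤ j → x i ≤ x j := by
    intro i hi
    have h2 := hmono (j - i) i (by omega)
    rwa [show i + (j - i) = j by omega] at h2
  -- the coefficient
  have hP : (∑ k ∈ range (n + 1), Polynomial.C (a k) * Polynomial.X ^ k : Polynomial ℝ) =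
      ∏ i ∈ range n, (1 + Polynomial.C ((x i)⁻¹) * Polynomial.X) := by
    apply Polynomial.funext
    intro y
    rw [Polynomial.eval_finsetSum, Polynomial.eval_prod]
    simp only [Polynomial.eval_mul, Polynomial.eval_C, Polynomial.eval_pow, Polynomial.eval_X,
      Polynomial.eval_add, Polynomial.eval_one]
    rw [ha y]
    refine prod_congr rfl fun i _ => ?_
    rw [div_eq_mul_inv, mul_comm]
  have hcoef : a (j + 1) = (∏ i ∈ range n, (1 + Polynomial.C ((x i)⁻¹) * Polynomial.X)).coeff (j + 1) := by
    rw [← hP, Polynomial.finsetSum_coeff]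
    simp only [Polynomial.coeff_C_mul, Polynomial.coeff_X_pow]
    rw [Finset.sum_eq_single (j + 1)]
    · simp
    · intro k _ hk
      rw [if_neg (Ne.symm hk), mul_zero]
    · intro h
      exact absurd (mem_range.2 (by omega)) h
  have hlow := (coeff_low (fun i => (x i)⁻¹) n (fun i hi => (inv_pos.2 (hx i hi)).le)).2 (j + 1) hj
  rw [← hcoef] at hlow
  have h1 : |∏ i ∈ range n, (1 - ρ * x j / x i)| ≤
      ∏ i ∈ range n, (if i < j + 1 then ρ * x j * (x i)⁻¹ else 1) := by
    rw [Finset.abs_prod]
    refine Finset.prod_le_prod (fun _ _ => abs_nonneg _) fun i hi => ?_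
    have hin := mem_range.1 hi
    have hxi := hx i hin
    split_ifs with h
    · have h2 := hsmall i (by omega)
      have h3 : 1 ≤ ρ * x j / x i := by
        rw [le_div_iff₀ hxi]
        nlinarith
      rw [abs_of_nonpos (by linarith), ← div_eq_mul_inv]
      linarith
    · have h2 := hbig i (by omega) hin
      have h3 : ρ * x j / x i ≤ 1 := by
        rw [div_le_one hxi]
        nlinarith
      have h4 : 0 ≤ ρ * x j / x i := by positivity
      rw [abs_of_nonneg (by linarith)]
      linarith
  refine h1.trans ?_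
  rw [Finset.prod_ite, Finset.prod_const_one, mul_one]
  have h2 : (range n).filter (fun i => i < j + 1) = range (j + 1) := by
    ext i
    simp only [mem_filter, mem_range]
    omega
  rw [h2, Finset.prod_mul_distrib, Finset.prod_const, card_range, mul_comm]
  exact mul_le_mul_of_nonneg_right hlow (by positivity)

end Pool.Agent.MPd164ca
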