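import Mathlib

/-!
# Weights with almost constant quotients
-/

namespace Pool.Agent.MPd164ca

private theorem wt_abs {t B : ℝ} (hB : 1 ≤ B) (h1 : t ≤ B) (h2 : 1 ≤ B * t) : |t - 1| ≤ B - 1 := by
  rw [abs_le]
  constructor
  · have h3 : B * (2 - B) ≤ B * t := by nlinarith [sq_nonneg (B - 1)]
    have h4 : 2 - B ≤ t := le_of_mul_le_mul_left h3 (by linarith)
    linarith
  · linarith

private theorem wt_step {g t r : ℝ} (hg : 1 ≤ g) (ht : 0 < t) (hr : 0 < r) {a b c : ℕ} (hab : a + b ≤ c)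
    (h1 : t ≤ g ^ a) (h2 : 1 ≤ g ^ a * t) (h3 : r ≤ g ^ b) (h4 : 1 ≤ g ^ b * r) :
    t * r ≤ g ^ c ∧ 1 ≤ g ^ c * (t * r) := by
  have h5 : g ^ a * g ^ b ≤ g ^ c := by
    rw [← pow_add]
    exact pow_le_pow_right₀ hg hab
  have ha : 0 < g ^ a := by positivity
  constructor
  · exact (mul_le_mul h1 h3 hr.le ha.le).trans h5
  · have h6 : 1 ≤ (g ^ a * t) * (g ^ b * r) := one_le_mul_of_one_le_of_one_le h2 h4
    have h7 : (g ^ a * t) * (g ^ b * r) = (g ^ a * g ^ b) * (t * r) := by ring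
    rw [h7] at h6
    exact h6.trans (mul_le_mul_of_nonneg_right h5 (by positivity))

theorem sr_wt {w : ℕ → ℝ} (hw : ∀ k, 0 < w k) {η : ℝ} (hη : 0 < η)
    (h : ∀ k, w k * w (k + 2) ≤ (1 + η) * w (k + 1) ^ 2 ∧
      w (k + 1) ^ 2 ≤ (1 + η) * (w k * w (k + 2))) (p m : ℕ) :
    |w (p + m) / (w p * (w (p + 1) / w p) ^ m) - 1| ≤ (1 + η) ^ (m ^ 2) - 1 ∧
    (m ≤ p → |w (p - m) * (w (p + 1) / w p) ^ m / w p - 1| ≤ (1 + η) ^ (m ^ 2) - 1) := by
  obtain ⟨g, hg⟩ : ∃ g : ℝ, g = 1 + η := ⟨_, rfl⟩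
  have hg1 : 1 ≤ g := by rw [hg]; linarith
  have hg0 : 0 < g := by linarith
  rw [← hg] at h ⊢
  obtain ⟨l, hl⟩ : ∃ l : ℕ → ℝ, ∀ k, l k = w (k + 1) / w k := ⟨fun k => w (k + 1) / w k, fun _ => rfl⟩
  have hl0 : ∀ k, 0 < l k := fun k => by
    rw [hl]
    exact div_pos (hw _) (hw _)
  have hl1 : ∀ k, l (k + 1) ≤ g * l k := fun k => by
    rw [hl, hl, ← mul_div_assoc, div_le_div_iff₀ (hw _) (hw _)]
    have := (h k).1
    nlinarith
  have hl2 : ∀ k, l k ≤ g * l (k + 1) := fun k => by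
    rw [hl, hl, ← mul_div_assoc, div_le_div_iff₀ (hw _) (hw _)]
    have := (h k).2
    nlinarith
  have hup : ∀ i, l (p + i) ≤ g ^ i * l p ∧ l p ≤ g ^ i * l (p + i) := by
    intro i
    induction i with
    | zero => simp
    | succ i ih =>
      have h1 := hl1 (p + i)
      have h2 := hl2 (p + i)
      have e : p + (i + 1) = p + i + 1 := rfl
      have hgi : 0 < g ^ i := by positivity
      rw [e, pow_succ]
      constructor
      · calc l (p + i + 1) ≤ g * l (p + i) := h1
          _ ≤ g * (g ^ i * l p) := mul_le_mul_of_nonneg_left ih.1 hg0.le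
          _ = _ := by ring
      · calc l p ≤ g ^ i * l (p + i) := ih.2
          _ ≤ g ^ i * (g * l (p + i + 1)) := mul_le_mul_of_nonneg_left h2 hgi.le
          _ = _ := by ring
  have hdn : ∀ i, i ≤ p → l (p - i) ≤ g ^ i * l p ∧ l p ≤ g ^ i * l (p - i) := by
    intro i
    induction i with
    | zero => intro _; simp
    | succ i ih =>
      intro hi
      have ih := ih (by omega)
      have e : p - i = p - (i + 1) + 1 := by omega
      have h1 := hl1 (p - (i + 1))
      have h2 := hl2 (p - (i + 1))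
      rw [← e] at h1 h2
      have hgi : 0 < g ^ i := by positivity
      rw [pow_succ]
      constructor
      · calc l (p - (i + 1)) ≤ g * l (p - i) := h2
          _ ≤ g * (g ^ i * l p) := mul_le_mul_of_nonneg_left ih.1 hg0.le
          _ = _ := by ring
      · calc l p ≤ g ^ i * l (p - i) := ih.2
          _ ≤ g ^ i * (g * l (p - (i + 1))) := mul_le_mul_of_nonneg_left h1 hgi.le
          _ = _ := by ring
  rw [← hl p]
  have hT : ∀ m, w (p + m) / (w p * l p ^ m) ≤ g ^ (m ^ 2) ∧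
      1 ≤ g ^ (m ^ 2) * (w (p + m) / (w p * l p ^ m)) := by
    intro m
    induction m with
    | zero => simp [(hw p).ne']
    | succ m ih =>
      have e : w (p + (m + 1)) / (w p * l p ^ (m + 1)) =
          w (p + m) / (w p * l p ^ m) * (l (p + m) / l p) := by
        have h1 := (hw p).ne'
        have h2 := (hw (p + m)).ne'
        have h3 := (hl0 p).ne'
        rw [hl (p + m), pow_succ]
        have e2 : p + (m + 1) = p + m + 1 := rfl
        rw [e2]
        field_simp
      have hpm := hup m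
      rw [e]
      refine wt_step hg1 (div_pos (hw _) (mul_pos (hw _) (pow_pos (hl0 p) _)))
        (div_pos (hl0 _) (hl0 _)) (a := m ^ 2) (b := m) (by nlinarith) ih.1 ih.2 ?_ ?_
      · rw [div_le_iff₀ (hl0 p)]
        exact hpm.1
      · rw [← mul_div_assoc, le_div_iff₀ (hl0 p), one_mul]
        exact hpm.2
  have hS : ∀ m, m ≤ p → w (p - m) * l p ^ m / w p ≤ g ^ (m ^ 2) ∧
      1 ≤ g ^ (m ^ 2) * (w (p - m) * l p ^ m / w p) := by
    intro m
    induction m with
    | zero => intro _; simp [(hw p).ne']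
    | succ m ih =>
      intro hm
      have ih := ih (by omega)
      have e : w (p - (m + 1)) * l p ^ (m + 1) / w p =
          w (p - m) * l p ^ m / w p * (l p / l (p - (m + 1))) := by
        have h1 := (hw p).ne'
        have h2 := (hw (p - m)).ne'
        have h3 := (hw (p - (m + 1))).ne'
        have e2 : p - (m + 1) + 1 = p - m := by omega
        rw [hl (p - (m + 1)), pow_succ, e2]
        field_simp
      have hpm := hdn (m + 1) hm
      rw [e]
      refine wt_step hg1 (div_pos (mul_pos (hw _) (pow_pos (hl0 p) _)) (hw _))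
        (div_pos (hl0 _) (hl0 _)) (a := m ^ 2) (b := m + 1) (by nlinarith) ih.1 ih.2 ?_ ?_
      · rw [div_le_iff₀ (hl0 _)]
        exact hpm.2
      · rw [← mul_div_assoc, le_div_iff₀ (hl0 _), one_mul]
        exact hpm.1
  have hB : 1 ≤ g ^ (m ^ 2) := one_le_pow₀ hg1
  exact ⟨wt_abs hB (hT m).1 (hT m).2, fun hm => wt_abs hB (hS m hm).1 (hS m hm).2⟩

end Pool.Agent.MPd164ca
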