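import Pool.Agent.Lib.MP_d164ca_an.SQ.Count
import Pool.Agent.Lib.MP_d164ca_an.SQ.Mesh
import Pool.Agent.Lib.MP_d164ca_an.SQ.Bound
import Pool.Agent.Lib.MP_d164ca_an.SQ.Jen
import Pool.Agent.Lib.MP_d164ca_an.SR.Tail
import Pool.Agent.Lib.MP_d164ca_an.SR.Top
import Pool.Agent.Lib.MP_d164ca_an.SR.Wt
import Pool.Agent.Lib.MP_d164ca_an.SR.Sum

/-!
# Multiplier sequences with convergent quotients
-/

namespace Pool.Agent.MPd164ca

open Polynomial Finset Filter Topology

/-- weights with almost constant quotients keep the signs -/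
private theorem SR_sign {n p : ℕ} (hpn : p ≤ n) {a w : ℕ → ℝ} (ha : ∀ k, 0 ≤ a k)
    (hw : ∀ k, 0 < w k) {z η D P lam K : ℝ} {σ : ℝ} (hσ : 0 < σ) (hz : 0 < z) (hη : 0 < η)
    (hlam : lam = w (p + 1) / w p) (hK : 0 < K) (hD : 0 < D)
    (hP : P = ∑ k ∈ range (n + 1), a k * (-z) ^ k) (hP0 : 0 < (-1) ^ p * P)
    (htop : a p * z ^ p ≤ D * |P|)
    (htail : ∀ m : ℕ, a (p + m) * z ^ (p + m) ≤ K ^ m * σ ^ (m * (m - 1)) * (a p * z ^ p) ∧
      (m ≤ p → a (p - m) * z ^ (p - m) ≤ K ^ m * σ ^ (m * (m - 1)) * (a p * z ^ p)))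
    (hwt : ∀ m : ℕ, |w (p + m) / (w p * lam ^ m) - 1| ≤ (1 + η) ^ (m ^ 2) - 1 ∧
      (m ≤ p → |w (p - m) * lam ^ m / w p - 1| ≤ (1 + η) ^ (m ^ 2) - 1))
    (hsum : ∀ N : ℕ, ∑ m ∈ range N, K ^ m * σ ^ (m * (m - 1)) * ((1 + η) ^ (m ^ 2) - 1) ≤
      1 / (4 * D)) :
    0 < (-1) ^ p * ∑ k ∈ range (n + 1), a k * w k * (-(z / lam)) ^ k := by
  have hlam0 : 0 < lam := by rw [hlam]; exact div_pos (hw _) (hw _)
  have hwp := hw p
  obtain ⟨t, ht⟩ : ∃ t : ℕ → ℝ, ∀ k, t k = w k * lam ^ p / (w p * lam ^ k) := ⟨_, fun k => rfl⟩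
  obtain ⟨g, hg⟩ : ∃ g : ℕ → ℝ, ∀ m, g m =
      K ^ m * σ ^ (m * (m - 1)) * ((1 + η) ^ (m ^ 2) - 1) := ⟨_, fun m => rfl⟩
  have hg0 : ∀ m, 0 ≤ g m := by
    intro m
    rw [hg]
    have : 1 ≤ (1 + η) ^ (m ^ 2) := one_le_pow₀ (by linarith)
    have h2 : 0 ≤ (1 + η) ^ (m ^ 2) - 1 := by linarith
    positivity
  have hsplit : ∑ k ∈ range (n + 1), a k * w k * (-(z / lam)) ^ k =
      (w p / lam ^ p) * (P + ∑ k ∈ range (n + 1), a k * (-z) ^ k * (t k - 1)) := by
    rw [hP, ← Finset.sum_add_distrib, Finset.mul_sum]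
    refine Finset.sum_congr rfl fun k _ => ?_
    rw [ht, ← neg_div, div_pow]
    field_simp
    ring
  have hEup : ∀ m : ℕ, |a (p + m) * (-z) ^ (p + m) * (t (p + m) - 1)| ≤ D * |P| * g m := by
    intro m
    have e1 : t (p + m) = w (p + m) / (w p * lam ^ m) := by
      rw [ht, pow_add]
      field_simp
    rw [abs_mul, abs_mul, abs_of_nonneg (ha _), abs_pow, abs_neg, abs_of_pos hz, e1, hg]
    have h1 := (htail m).1
    have h2 := (hwt m).1
    have h3 : 0 ≤ (1 + η) ^ (m ^ 2) - 1 := (abs_nonneg _).trans h2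
    calc _ ≤ (K ^ m * σ ^ (m * (m - 1)) * (a p * z ^ p)) * ((1 + η) ^ (m ^ 2) - 1) := by
          refine mul_le_mul h1 h2 (abs_nonneg _) ?_
          have := ha p
          positivity
      _ ≤ (K ^ m * σ ^ (m * (m - 1)) * (D * |P|)) * ((1 + η) ^ (m ^ 2) - 1) := by
          gcongr
      _ = _ := by ring
  have hEdn : ∀ m : ℕ, m ≤ p → |a (p - m) * (-z) ^ (p - m) * (t (p - m) - 1)| ≤
      D * |P| * g m := by
    intro m hm
    have e1 : t (p - m) = w (p - m) * lam ^ m / w p := by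
      have e2 : lam ^ p = lam ^ (p - m) * lam ^ m := by rw [← pow_add]; congr 1; omega
      rw [ht, e2]
      field_simp
    rw [abs_mul, abs_mul, abs_of_nonneg (ha _), abs_pow, abs_neg, abs_of_pos hz, e1, hg]
    have h1 := (htail m).2 hm
    have h2 := (hwt m).2 hm
    have h3 : 0 ≤ (1 + η) ^ (m ^ 2) - 1 := (abs_nonneg _).trans h2
    calc _ ≤ (K ^ m * σ ^ (m * (m - 1)) * (a p * z ^ p)) * ((1 + η) ^ (m ^ 2) - 1) := by
          refine mul_le_mul h1 h2 (abs_nonneg _) ?_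
          have := ha p
          positivity
      _ ≤ (K ^ m * σ ^ (m * (m - 1)) * (D * |P|)) * ((1 + η) ^ (m ^ 2) - 1) := by
          gcongr
      _ = _ := by ring
  have hPa : |P| = (-1) ^ p * P := by
    rw [← abs_of_pos hP0, abs_mul, abs_pow, abs_neg, abs_one, one_pow, one_mul]
  have hPpos : 0 < |P| := by rw [hPa]; exact hP0
  set E : ℝ := ∑ k ∈ range (n + 1), a k * (-z) ^ k * (t k - 1) with hE
  have hEb : |E| ≤ |P| / 2 := by
    have e1 : |E| ≤ ∑ k ∈ range (n + 1), |a k * (-z) ^ k * (t k - 1)| :=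
      Finset.abs_sum_le_sum_abs _ _
    have e2 : ∑ k ∈ range (n + 1), |a k * (-z) ^ k * (t k - 1)| =
        ∑ k ∈ range p, |a k * (-z) ^ k * (t k - 1)| +
          ∑ k ∈ Ico p (n + 1), |a k * (-z) ^ k * (t k - 1)| :=
      (Finset.sum_range_add_sum_Ico _ (by omega)).symm
    have e3 : ∑ k ∈ Ico p (n + 1), |a k * (-z) ^ k * (t k - 1)| ≤
        D * |P| * (1 / (4 * D)) := by
      rw [Finset.sum_Ico_eq_sum_range]
      refine (Finset.sum_le_sum fun m _ => hEup m).trans ?_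
      rw [← Finset.mul_sum]
      refine mul_le_mul_of_nonneg_left ?_ (by positivity)
      have := hsum (n + 1 - p)
      simp only [← hg] at this
      exact this
    have e4 : ∑ k ∈ range p, |a k * (-z) ^ k * (t k - 1)| ≤ D * |P| * (1 / (4 * D)) := by
      rw [← Finset.sum_range_reflect]
      have e5 : ∀ m ∈ range p, |a (p - 1 - m) * (-z) ^ (p - 1 - m) * (t (p - 1 - m) - 1)| ≤
          D * |P| * g (m + 1) := by
        intro m hm
        rw [Finset.mem_range] at hm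
        have e6 : p - 1 - m = p - (m + 1) := by omega
        rw [e6]
        exact hEdn (m + 1) (by omega)
      refine (Finset.sum_le_sum e5).trans ?_
      rw [← Finset.mul_sum]
      refine mul_le_mul_of_nonneg_left ?_ (by positivity)
      have := hsum (p + 1)
      simp only [← hg] at this
      rw [Finset.sum_range_succ'] at this
      linarith [hg0 0]
    have e7 : D * |P| * (1 / (4 * D)) = |P| / 4 := by field_simp
    rw [e7] at e3 e4
    rw [e2] at e1
    linarith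
  have hE2 : -|E| ≤ (-1) ^ p * E := by
    have : |(-1) ^ p * E| = |E| := by
      rw [abs_mul, abs_pow, abs_neg, abs_one, one_pow, one_mul]
    rw [← this]
    exact neg_abs_le _
  rw [hsplit]
  have e8 : (-1) ^ p * (w p / lam ^ p * (P + E)) =
      (w p / lam ^ p) * ((-1) ^ p * P + (-1) ^ p * E) := by ring
  rw [e8, ← hPa]
  refine mul_pos (by positivity) ?_
  linarith

/-- the Gaussian multiplier sequence is stable -/
theorem sr_gauss {σ : ℝ} (h0 : 0 < σ) (h1 : σ < 1) :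
    ∃ η : ℝ, 0 < η ∧ ∀ w : ℕ → ℝ, (∀ k, 0 < w k) →
      (∀ k, w k * w (k + 2) ≤ (1 + η) * w (k + 1) ^ 2 ∧
        w (k + 1) ^ 2 ≤ (1 + η) * (w k * w (k + 2))) →
      IsMultiplierSequence (fun k : ℕ => σ ^ (k ^ 2) * w k) := by
  have hρ : 1 < 1 / σ := by rw [lt_div_iff₀ h0]; linarith
  obtain ⟨D, hD, hB⟩ := sq_bound hρ (one_lt_two : (1 : ℝ) < 2)
  obtain ⟨η₀, hη0, hS⟩ := sr_sum h0 h1 hD (show 0 < 1 / (4 * D) by positivity)
  have hσ2 : 0 < 1 / σ ^ 2 - 1 := by
    rw [sub_pos, lt_div_iff₀ (by positivity)]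
    nlinarith
  refine ⟨min η₀ ((1 / σ ^ 2 - 1) / 2), lt_min hη0 (by linarith), fun w hw h => ?_⟩
  set η : ℝ := min η₀ ((1 / σ ^ 2 - 1) / 2) with hη
  have hη1 : 0 < η := lt_min hη0 (by linarith)
  have hη2 : 1 + η < 1 / σ ^ 2 := by
    have : η ≤ (1 / σ ^ 2 - 1) / 2 := min_le_right _ _
    linarith
  have hsum := hS η hη1 (min_le_left _ _)
  refine sq_ms (fun k => mul_pos (pow_pos h0 _) (hw k)) fun n => ?_
  obtain ⟨x, hx0, hx1, hx2⟩ := sq_mesh h0 h1 n
  have hx3 : ∀ i, i + 1 < n → (1 / σ) ^ 2 * x i ≤ x (i + 1) := by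
    intro i hi
    have := hx1 i hi
    rw [one_div, inv_pow, inv_mul_le_iff₀ (by positivity)]
    exact this
  refine sq_count (n := n) ?_ ?_ (fun j => 1 / σ * x j / (w (j + 1 + 1) / w (j + 1))) ?_ ?_ ?_
  · rw [natDegree_le_iff_coeff_eq_zero]
    intro N hN
    rw [jen_coeff, Nat.choose_eq_zero_of_lt hN, Nat.cast_zero, zero_mul]
  · rw [← coeff_zero_eq_eval_zero, jen_coeff, Nat.choose_zero_right]
    have := hw 0
    positivity
  · intro hn
    have := hx0 0 hn
    have := hw (0 + 1)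
    have := hw (0 + 1 + 1)
    positivity
  · intro j hj
    have e1 := hx3 j hj
    have e2 := hx0 j (by omega)
    have e3 := hx0 (j + 1) hj
    have w1 := hw (j + 1)
    have w2 := hw (j + 1 + 1)
    have w3 := hw (j + 1 + 1 + 1)
    have e4 : w (j + 1) * w (j + 1 + 2) ≤ (1 + η) * w (j + 1 + 1) ^ 2 := (h (j + 1)).1
    have e5 : w (j + 1 + 2) = w (j + 1 + 1 + 1) := rfl
    rw [e5] at e4
    show 1 / σ * x j / (w (j + 1 + 1) / w (j + 1)) <
      1 / σ * x (j + 1) / (w (j + 1 + 1 + 1) / w (j + 1 + 1))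
    rw [mul_div_assoc, mul_div_assoc]
    refine mul_lt_mul_of_pos_left ?_ (by positivity)
    rw [div_div_eq_mul_div, div_div_eq_mul_div, div_lt_div_iff₀ w2 w3]
    have e6 : x j * (1 + η) < x (j + 1) := by
      have e7 : x j * (1 + η) < x j * (1 / σ ^ 2) := mul_lt_mul_of_pos_left hη2 e2
      have e8 : x j * (1 / σ ^ 2) = (1 / σ) ^ 2 * x j := by rw [one_div_pow]; ring
      linarith
    calc x j * w (j + 1) * w (j + 1 + 1 + 1) = x j * (w (j + 1) * w (j + 1 + 1 + 1)) := by ring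
      _ ≤ x j * ((1 + η) * w (j + 1 + 1) ^ 2) := mul_le_mul_of_nonneg_left e4 e2.le
      _ = x j * (1 + η) * w (j + 1 + 1) ^ 2 := by ring
      _ < x (j + 1) * w (j + 1 + 1) ^ 2 := mul_lt_mul_of_pos_right e6 (by positivity)
      _ = x (j + 1) * w (j + 1 + 1) * w (j + 1 + 1) := by ring
  · intro j hj
    obtain ⟨b1, b2, b3⟩ := hB n x hx0 hx3 j hj
    have htop := sr_top hρ (a := fun k => (n.choose k : ℝ) * σ ^ (k ^ 2)) hx0 hx3 hx2 hj
    have hz : 0 < 1 / σ * x j := by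
      have := hx0 j hj
      positivity
    set z : ℝ := 1 / σ * x j with hzd
    have hP : ∏ i ∈ range n, (1 - z / x i) =
        ∑ k ∈ range (n + 1), ((n.choose k : ℝ) * σ ^ (k ^ 2)) * (-z) ^ k := by
      rw [hx2]
      refine Finset.prod_congr rfl fun i _ => ?_
      ring
    rw [← hx2] at b2 b3
    set P : ℝ := ∏ i ∈ range n, (1 - z / x i) with hPd
    obtain ⟨a, hadef⟩ : ∃ a : ℕ → ℝ, ∀ k, a k = (n.choose k : ℝ) * σ ^ (k ^ 2) :=
      ⟨_, fun k => rfl⟩
    have ha0 : ∀ k, 0 ≤ a k := fun k => by rw [hadef]; positivity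
    have htop' : |P| ≤ a (j + 1) * z ^ (j + 1) := by rw [hadef]; exact htop
    have hmem : j + 1 ∈ range (n + 1) := Finset.mem_range.2 (by omega)
    have c1 : a (j + 1) * z ^ (j + 1) ≤ D * |P| := by
      have c2 : a (j + 1) * (2 * z) ^ (j + 1) ≤ D * 2 ^ (j + 1) * |P| := by
        refine le_trans ?_ b2
        have := Finset.single_le_sum (f := fun k => (n.choose k : ℝ) * σ ^ (k ^ 2) * (2 * z) ^ k)
          (fun k _ => by positivity) hmem
        rw [hadef]
        exact this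
      rw [mul_pow] at c2
      have c3 : (0 : ℝ) < 2 ^ (j + 1) := by positivity
      nlinarith
    have c4 : a (j + 1 + 1) * z ^ (j + 1 + 1) ≤ D * |P| := by
      rcases Nat.lt_or_ge (j + 1 + 1) (n + 1) with hlt | hge
      · have c2 : a (j + 1 + 1) * (2 * z) ^ (j + 1 + 1) ≤ D * 2 ^ (j + 1) * |P| := by
          refine le_trans ?_ b2
          have := Finset.single_le_sum (f := fun k => (n.choose k : ℝ) * σ ^ (k ^ 2) * (2 * z) ^ k)
            (fun k _ => by positivity) (Finset.mem_range.2 hlt)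
          rw [hadef]
          exact this
        rw [mul_pow, pow_succ (2 : ℝ) (j + 1)] at c2
        have c3 : (0 : ℝ) < 2 ^ (j + 1) := by positivity
        have c5 : 0 ≤ a (j + 1 + 1) * z ^ (j + 1 + 1) := by
          have := ha0 (j + 1 + 1)
          positivity
        nlinarith
      · rw [hadef, Nat.choose_eq_zero_of_lt (by omega)]
        have := abs_nonneg P
        simp only [Nat.cast_zero, zero_mul]
        positivity
    have c6 : a j * z ^ j ≤ D * |P| := by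
      have c2 : 2 ^ (j + 1) * (a j * (z / 2) ^ j) ≤ D * |P| := by
        refine le_trans ?_ b3
        refine mul_le_mul_of_nonneg_left ?_ (by positivity)
        have := Finset.single_le_sum (f := fun k => (n.choose k : ℝ) * σ ^ (k ^ 2) * (z / 2) ^ k)
          (fun k _ => by positivity) (Finset.mem_range.2 (by omega : j < n + 1))
        rw [hadef]
        exact this
      have c7 : 2 ^ (j + 1) * (a j * (z / 2) ^ j) = 2 * (a j * z ^ j) := by
        rw [div_pow, pow_succ]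
        field_simp
      rw [c7] at c2
      have c5 : 0 ≤ a j * z ^ j := by
        have := ha0 j
        positivity
      linarith
    have htail := sr_tail (K := D) h0 h1 hz hD (n := n) (p := j + 1) (by omega) (by omega)
      (by
        have := c4.trans (mul_le_mul_of_nonneg_left htop' hD.le)
        rw [hadef, hadef] at this
        exact this)
      (by
        have := c6.trans (mul_le_mul_of_nonneg_left htop' hD.le)
        rw [hadef, hadef] at this
        exact this)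
    have key := SR_sign (n := n) (p := j + 1) (by omega) (a := a) (w := w) ha0 hw (z := z) (η := η)
      (D := D) (P := P) (K := D) (σ := σ) h0 hz hη1 rfl hD hD
      (by rw [hP]; exact Finset.sum_congr rfl fun k _ => by rw [hadef]) b1 c1
      (fun m => by
        simp only [hadef]
        exact htail m)
      (fun m => sr_wt hw hη1 h (j + 1) m) hsum
    rw [jen_eval]
    have he : ∑ k ∈ range (n + 1), (n.choose k : ℝ) * (σ ^ (k ^ 2) * w k) *
        (-(z / (w (j + 1 + 1) / w (j + 1)))) ^ k =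
        ∑ k ∈ range (n + 1), a k * w k * (-(z / (w (j + 1 + 1) / w (j + 1)))) ^ k := by
      refine Finset.sum_congr rfl fun k _ => ?_
      rw [hadef]
      ring
    rw [he]
    exact key

/-- the limit of the quotients is between 0 and 1 -/
private theorem SR_pos {F : ℝ → ℝ} {r : ℝ} (hF : ∀ᶠ x in atTop, 0 < F x)
    (hr : Tendsto (fun x : ℝ => F (x - 1) * F (x + 1) / F x ^ 2) atTop (𝓝 r)) (hr0 : 0 < r)
    (hr1 : r < 1) :
    ∃ S : ℝ, ∀ s : ℝ, S ≤ s → IsMultiplierSequence (fun k : ℕ => F (s + k)) := by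
  have hσ0 : 0 < Real.sqrt r := Real.sqrt_pos.2 hr0
  have hσ1 : Real.sqrt r < 1 := by
    rw [Real.sqrt_lt' one_pos, one_pow]; exact hr1
  have hσ2 : Real.sqrt r ^ 2 = r := Real.sq_sqrt hr0.le
  set σ := Real.sqrt r with hσ
  obtain ⟨η, hη, hms⟩ := sr_gauss hσ0 hσ1
  have h1 : r < (1 + η) * r := by nlinarith
  have h2 : r / (1 + η) < r := by
    rw [div_lt_iff₀ (by linarith)]; nlinarith
  obtain ⟨X1, hX1⟩ := eventually_atTop.1 ((tendsto_order.1 hr).2 _ h1)
  obtain ⟨X2, hX2⟩ := eventually_atTop.1 ((tendsto_order.1 hr).1 _ h2)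
  obtain ⟨X3, hX3⟩ := eventually_atTop.1 hF
  refine ⟨max X1 (max X2 X3), fun s hs => ?_⟩
  have hs1 : X1 ≤ s := le_trans (le_max_left _ _) hs
  have hs2 : X2 ≤ s := le_trans (le_trans (le_max_left _ _) (le_max_right _ _)) hs
  have hs3 : X3 ≤ s := le_trans (le_trans (le_max_right _ _) (le_max_right _ _)) hs
  have hpos : ∀ k : ℕ, 0 < F (s + k) := fun k =>
    hX3 _ (by have : (0 : ℝ) ≤ k := Nat.cast_nonneg k; linarith)
  have hw := hms (fun k : ℕ => F (s + k) / σ ^ (k ^ 2))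
    (fun k => div_pos (hpos k) (by positivity)) (fun k => by
      have hk : (0 : ℝ) ≤ k := Nat.cast_nonneg k
      have e1 : s + ((k + 1 : ℕ) : ℝ) - 1 = s + k := by push_cast; ring
      have e2 : s + ((k + 1 : ℕ) : ℝ) + 1 = s + ((k + 2 : ℕ) : ℝ) := by push_cast; ring
      have g1 := hX1 (s + ((k + 1 : ℕ) : ℝ)) (by push_cast; linarith)
      have g2 := hX2 (s + ((k + 1 : ℕ) : ℝ)) (by push_cast; linarith)
      rw [e1, e2] at g1 g2
      have p1 := hpos (k + 1)
      have p0 := hpos k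
      have p2 := hpos (k + 2)
      rw [div_lt_iff₀ (by positivity)] at g1
      rw [lt_div_iff₀ (by positivity), div_mul_eq_mul_div, div_lt_iff₀ (by linarith)] at g2
      have e3 : σ ^ (k ^ 2) * σ ^ ((k + 2) ^ 2) = r * (σ ^ ((k + 1) ^ 2)) ^ 2 := by
        rw [← hσ2, ← pow_mul, ← pow_add, ← pow_add]
        congr 1
        ring
      set A := F (s + k) with hA
      set B := F (s + ((k + 1 : ℕ) : ℝ)) with hB
      set C := F (s + ((k + 2 : ℕ) : ℝ)) with hC
      have hτ : 0 < (σ ^ ((k + 1) ^ 2)) ^ 2 := by positivity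
      rw [div_mul_div_comm, e3, div_pow]
      constructor
      · rw [div_le_iff₀ (by positivity)]
        have : (1 + η) * (B ^ 2 / (σ ^ ((k + 1) ^ 2)) ^ 2) * (r * (σ ^ ((k + 1) ^ 2)) ^ 2) =
            (1 + η) * r * B ^ 2 := by field_simp
        rw [this]
        exact g1.le
      · rw [div_le_iff₀ hτ]
        have : (1 + η) * (A * C / (r * (σ ^ ((k + 1) ^ 2)) ^ 2)) * (σ ^ ((k + 1) ^ 2)) ^ 2 =
            (1 + η) * (A * C) / r := by field_simp
        rw [this, le_div_iff₀ hr0]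
        linarith)
  have he : (fun k : ℕ => σ ^ (k ^ 2) * (F (s + k) / σ ^ (k ^ 2))) = fun k : ℕ => F (s + k) := by
    funext k
    field_simp
  rw [he] at hw
  exact hw

/-- small quotients -/
private theorem SR_small {F : ℝ → ℝ} (hF : ∀ᶠ x in atTop, 0 < F x)
    (hr : ∀ᶠ x : ℝ in atTop, F (x - 1) * F (x + 1) / F x ^ 2 < 1 / 4) :
    ∃ S : ℝ, ∀ s : ℝ, S ≤ s → IsMultiplierSequence (fun k : ℕ => F (s + k)) := by
  obtain ⟨X1, hX1⟩ := eventually_atTop.1 hr
  obtain ⟨X3, hX3⟩ := eventually_atTop.1 hF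
  refine ⟨max X1 X3, fun s hs => ?_⟩
  have hs1 : X1 ≤ s := le_trans (le_max_left _ _) hs
  have hs3 : X3 ≤ s := le_trans (le_max_right _ _) hs
  have hpos : ∀ k : ℕ, 0 < F (s + k) := fun k =>
    hX3 _ (by have : (0 : ℝ) ≤ k := Nat.cast_nonneg k; linarith)
  refine kz_ms_of_ratio (hpos 0).le (fun k _ => hpos k) fun k hk => ?_
  have hk0 : (0 : ℝ) ≤ k := Nat.cast_nonneg k
  have g1 := hX1 (s + k) (by linarith)
  have hcast : ((k - 1 : ℕ) : ℝ) = (k : ℝ) - 1 := by
    rw [Nat.cast_sub hk, Nat.cast_one]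
  have hcast2 : ((k + 1 : ℕ) : ℝ) = (k : ℝ) + 1 := by push_cast; ring
  rw [hcast, hcast2]
  have e1 : s + ((k : ℝ) - 1) = s + k - 1 := by ring
  have e2 : s + ((k : ℝ) + 1) = s + k + 1 := by ring
  rw [e1, e2]
  have p1 := hpos k
  rw [div_lt_iff₀ (by positivity)] at g1
  linarith

/-- large quotients -/
private theorem SR_large {F : ℝ → ℝ} (hF : ∀ᶠ x in atTop, 0 < F x)
    (hr : ∀ᶠ x : ℝ in atTop, 1 < F (x - 1) * F (x + 1) / F x ^ 2) (s : ℝ) :
    ¬ IsMultiplierSequence (fun k : ℕ => F (s + k)) := by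
  intro hms
  obtain ⟨X, hX⟩ := eventually_atTop.1 (hr.and hF)
  obtain ⟨k, hk⟩ := exists_nat_ge (X - s)
  have ht := ms_turan hms k
  have e1 : s + ((k + 1 : ℕ) : ℝ) - 1 = s + k := by push_cast; ring
  have e2 : s + ((k + 1 : ℕ) : ℝ) + 1 = s + ((k + 2 : ℕ) : ℝ) := by push_cast; ring
  obtain ⟨g1, p1⟩ := hX (s + ((k + 1 : ℕ) : ℝ)) (by push_cast; linarith)
  rw [e1, e2, lt_div_iff₀ (by positivity)] at g1
  linarith

theorem sr_necessity {F : ℝ → ℝ} {r : EReal} {u v : ℝ[X]} {a b : ℝ}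
    (hF : ∀ᶠ x in atTop, 0 < F x)
    (hr : Tendsto (fun x : ℝ => ((F (x - 1) * F (x + 1) / F x ^ 2 : ℝ) : EReal)) atTop (𝓝 r))
    (hu : u ≠ 0) (hv : ∀ x : ℝ, 0 ≤ x → v.eval x ≠ 0)
    (huv : r = 1 → ∀ x : ℝ, 0 ≤ x → F x = u.eval x / v.eval x * Real.exp (a * x + b))
    {s : ℝ} (hs : 0 ≤ s) (h : IsMultiplierSequence (fun k : ℕ => F (s + k))) :
    r < 1 ∨ (r = 1 ∧ v ∣ u) := by
  rcases lt_trichotomy r 1 with h1 | h1 | h1
  · exact Or.inl h1
  · refine Or.inr ⟨h1, ?_⟩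
    have he : (fun k : ℕ => F (s + k)) = fun k : ℕ => lsF u v (C a * X + C b) (s + k) := by
      funext k
      rw [lsF, huv h1 _ (by positivity), eval_add, eval_mul, eval_C, eval_C, eval_X]
    rw [he] at h
    have hd : (C a * X + C b : ℝ[X]).natDegree ≤ 1 := natDegree_linear_le
    rcases sh_necessity hu hv hs h with ⟨h2, -⟩ | ⟨-, h2⟩
    · omega
    · exact h2
  · exfalso
    refine SR_large hF ?_ s h
    filter_upwards [hr.eventually (lt_mem_nhds h1)] with x hx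
    exact_mod_cast hx

theorem sr_sufficiency {F : ℝ → ℝ} {r : EReal} {u v : ℝ[X]} {a b : ℝ}
    (hF : ∀ᶠ x in atTop, 0 < F x)
    (hr : Tendsto (fun x : ℝ => ((F (x - 1) * F (x + 1) / F x ^ 2 : ℝ) : EReal)) atTop (𝓝 r))
    (hv : ∀ x : ℝ, 0 ≤ x → v.eval x ≠ 0)
    (huv : r = 1 → ∀ x : ℝ, 0 ≤ x → F x = u.eval x / v.eval x * Real.exp (a * x + b))
    (h : r < 1 ∨ (r = 1 ∧ v ∣ u)) :
    ∃ S : ℝ, ∀ s : ℝ, S ≤ s → IsMultiplierSequence (fun k : ℕ => F (s + k)) := by
  rcases h with h1 | ⟨h1, h2⟩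
  · by_cases h4 : r < ((1 / 4 : ℝ) : EReal)
    · refine SR_small hF ?_
      filter_upwards [hr.eventually (gt_mem_nhds h4)] with x hx
      exact EReal.coe_lt_coe_iff.1 hx
    · have h5 : ((1 / 4 : ℝ) : EReal) ≤ r := not_lt.1 h4
      induction r using EReal.rec with
      | bot => exact absurd (EReal.bot_lt_coe _) h4
      | top => exact absurd h1 (not_lt.2 le_top)
      | coe r' =>
        have h6 : r' < 1 := by exact_mod_cast h1
        have h7 : 1 / 4 ≤ r' := EReal.coe_le_coe_iff.1 h5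
        exact SR_pos hF (EReal.tendsto_coe.1 hr) (by linarith) h6
  · have hd : (C a * X + C b : ℝ[X]).natDegree ≤ 1 := natDegree_linear_le
    obtain ⟨S, hS⟩ := sh_dvd (u := u) (q := C a * X + C b) hv (by omega)
      (by rw [coeff_eq_zero_of_natDegree_lt (by omega)]) h2
    refine ⟨max S 0, fun s hs => ?_⟩
    have hs0 : 0 ≤ s := le_trans (le_max_right _ _) hs
    have he : (fun k : ℕ => F (s + k)) = fun k : ℕ => lsF u v (C a * X + C b) (s + k) := by
      funext k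
      rw [lsF, huv h1 _ (by positivity), eval_add, eval_mul, eval_C, eval_C, eval_X]
    rw [he]
    exact hS s (le_trans (le_max_left _ _) hs)

end Pool.Agent.MPd164ca
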